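import Pool.Agent.Results.MP_c82047_co.FewExceptionalOrders
import Pool.Agent.Run7.h469.GA.Main

/-!
# The Brown-Erdős-Sós problem for triple systems with a group of automorphisms, for ALL orders near small combinations of the
# entries of ALL good rational approximations of almost every real tuple

For `κ' > κ ≥ 0` and `K₀`, `k` let an order `m` be good if the following holds: let a finite group, of any structure, of order
at most `m exp (√(log m) / 8)` act on a finite set such that all orbits have length `m` or `1`, and let `w ≤ m ^ (1 + κ)` be the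
number of the vertices in orbits of length `m`. If an invariant triple system has more than `w ^ (1 + κ')` triples containing
such a vertex then some `k` vertices span at least `k + ⌊k / K₀⌋` triples (the question asks for `k - 3`). The starting theorem
`FewExceptionalOrders` shows, for suitable `K₀` and all `k ≥ K₀`, that few `m ≤ x` are not good.

Theorem. For almost every `α ∈ ℝ ^ d`, `d ≥ 1`: for all `κ' > κ ≥ 0` there is `K₀` such that for all `k ≥ K₀` and all `W` the
following holds for all but finitely many of the vectors `(p, q)`, `p ∈ ℤ ^ d`, with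
`|α_i - p_i / q| ≤ (log q) ^ W / q ^ (1 + 1 / d)` for all `i`; by Dirichlet's theorem there are infinitely many such vectors for
every `α`: ALL positive integers `m = u · p + v q + w`, with integers `|u_i|, |v|, |w| ≤ (log q) ^ W`, `(u, v) ≠ 0`, are good.
For example all `m` at distance at most `(log q) ^ W` from `q` or from a numerator `p_i`. The same holds for the orders `F (m)`,
for these `m`, where `F` is any composition of the members of a sequence of additive functions (or of similar functions); the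
set of the `α` depends on the sequence only.

The exceptional orders are a set of density zero; this does not exclude that all good approximations of a given `α` are
exceptional. Here the size of the set of the `α` is estimated, by the lemma of Borel-Cantelli (`Pool.Agent.Run7.h469.GA`, by
helper469).
-/

set_option autoImplicit false

namespace Pool.Agent.Results.MP_c82047_co.AllGoodApproximations

open MeasureTheory Filter Topology
open Pool.Agent.N375.AV (PD comp)
open FewExceptionalOrders (TriplesAt)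

/-- the rational tuple `p / q` is a good approximation of `α` -/
def Approx {d : ℕ} (W : ℕ) (α : Fin d → ℝ) (p : Fin d → ℤ) (q : ℕ) : Prop :=
  1 ≤ q ∧ ∀ i, |α i - p i / q| ≤ Real.log q ^ W / (q : ℝ) ^ (1 + 1 / (d : ℝ))

/-- `m` is a positive integer near a small linear combination of the `p_i` and `q` -/
def Near {d : ℕ} (W : ℕ) (p : Fin d → ℤ) (q m : ℕ) : Prop :=
  0 < m ∧ ∃ (u : Fin d → ℤ) (v w : ℤ), (u ≠ 0 ∨ v ≠ 0) ∧ (∀ i, (|u i| : ℝ) ≤ Real.log q ^ W) ∧
    (|v| : ℝ) ≤ Real.log q ^ W ∧ (|w| : ℝ) ≤ Real.log q ^ W ∧ (m : ℤ) = ∑ i, u i * p i + v * q + w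

/-- a count with a factor `exp (- c (log x) ^ β)` shows that the exceptions are thin -/
lemma thin_of {Q : ℕ → Prop} {c K β : ℝ} (hc : 0 < c) (hβ : 0 < β)
    (h : ∀ x : ℕ, 1 ≤ x → ({m : ℕ | 1 ≤ m ∧ m ≤ x ∧ ¬ Q m}.ncard : ℝ) ≤ K * x * Real.exp (-(c * Real.log x ^ β))) :
    Run7.h469.GA.Thin Q := by
  classical
  intro A
  have h1 : Tendsto (fun t : ℝ => t ^ ((A : ℝ) / β) * Real.exp (-c * t)) atTop (𝓝 0) :=
    tendsto_rpow_mul_exp_neg_mul_atTop_nhds_zero _ _ hc
  have h2 : Tendsto (fun x : ℕ => Real.log x ^ β) atTop atTop :=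
    (tendsto_rpow_atTop hβ).comp (Real.tendsto_log_atTop.comp tendsto_natCast_atTop_atTop)
  have h3 := (h1.comp h2).const_mul |K|
  rw [mul_zero] at h3
  obtain ⟨X₁, hX₁⟩ := eventually_atTop.1 (h3.eventually (ge_mem_nhds (show (0 : ℝ) < 1 by norm_num)))
  refine ⟨max X₁ 3, fun X hX => ?_⟩
  have hX3 : 3 ≤ X := (le_max_right _ _).trans hX
  have h4 := hX₁ X ((le_max_left _ _).trans hX)
  simp only [Function.comp] at h4
  have hX3r : (3 : ℝ) ≤ X := by exact_mod_cast hX3
  have hL : 0 < Real.log X := Real.log_pos (by linarith)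
  have e1 : (Real.log X ^ β) ^ ((A : ℝ) / β) = Real.log X ^ A := by
    rw [← Real.rpow_mul hL.le, mul_div_cancel₀ _ hβ.ne', Real.rpow_natCast]
  rw [e1] at h4
  have h5 : ({m : ℕ | 1 ≤ m ∧ m ≤ X ∧ ¬ Q m}.ncard : ℝ) = ((Finset.Icc 1 X).filter (fun n => ¬ Q n)).card := by
    rw [← Set.ncard_coe_finset]
    congr 2
    ext m
    simp only [Set.mem_ofPred_eq, Finset.coe_filter, Finset.mem_Icc]
    tauto
  rw [← h5, le_div_iff₀ (pow_pos hL A)]
  refine (mul_le_mul_of_nonneg_right (h X (by omega)) (pow_nonneg hL.le A)).trans ?_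
  have hX0 : (0 : ℝ) ≤ X := by linarith
  calc K * X * Real.exp (-(c * Real.log X ^ β)) * Real.log X ^ A
      = X * (K * (Real.log X ^ A * Real.exp (-c * Real.log X ^ β))) := by
        rw [neg_mul]
        ring
    _ ≤ X * (|K| * (Real.log X ^ A * Real.exp (-c * Real.log X ^ β))) := by
        apply mul_le_mul_of_nonneg_left _ hX0
        apply mul_le_mul_of_nonneg_right (le_abs_self K)
        exact mul_nonneg (pow_nonneg hL.le A) (Real.exp_pos _).le
    _ ≤ X * 1 := mul_le_mul_of_nonneg_left h4 hX0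
    _ = X := mul_one _

/-- a smaller `κ` and a larger `κ'` give a weaker statement -/
lemma triplesAt_mono {K₀ k m : ℕ} {κ κ' r r' : ℝ} (hκ : 0 ≤ κ) (h1 : κ ≤ r) (h2 : r' ≤ κ') (h3 : 0 ≤ r')
    (h : TriplesAt K₀ k r r' m) : TriplesAt K₀ k κ κ' m := by
  intro V G _ _ _ _ _ hG horb w hw hwm H hunif hinv hH
  refine h V G hG horb w hw (hwm.trans ?_) H hunif hinv (lt_of_le_of_lt ?_ hH)
  · rcases Nat.eq_zero_or_pos m with h0 | h0
    · rw [h0, Nat.cast_zero, Real.zero_rpow (by linarith), Real.zero_rpow (by linarith)]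
    · exact Real.rpow_le_rpow_of_exponent_le (by exact_mod_cast h0) (by linarith)
  · rcases Nat.eq_zero_or_pos w with h0 | h0
    · rw [h0, Nat.cast_zero, Real.zero_rpow (by linarith), Real.zero_rpow (by linarith)]
    · exact Real.rpow_le_rpow_of_exponent_le (by exact_mod_cast h0) (by linarith)

/-- **Theorem.** Let `f_0, f_1, ...` be functions dominated by the largest prime factor (for example additive functions, see
`FewExceptionalOrders`) and `d ≥ 1`. For almost every `α ∈ ℝ ^ d`: for all `κ' > κ ≥ 0` there is `K₀` such that for all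
`k ≥ K₀`, all `W` and all compositions `F` of some of the functions `f_i` (also for `F = id`), for all but finitely many
vectors `(p, q)` with `|α_i - p_i / q| ≤ (log q) ^ W / q ^ (1 + 1 / d)` and all `m` near small linear combinations of the `p_i`
and `q` the order `F (m)` has the property `TriplesAt K₀ k κ κ'`. -/
theorem result (f : ℕ → ℕ → ℕ) (hf : ∀ i, PD (f i)) (d : ℕ) (hd : 1 ≤ d) : ∀ᵐ α : Fin d → ℝ,
    ∀ κ κ' : ℝ, 0 ≤ κ → κ < κ' → ∃ K₀ : ℕ, 1 ≤ K₀ ∧ ∀ k : ℕ, K₀ ≤ k → ∀ (W : ℕ) (l : List ℕ),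
      {z : (Fin d → ℤ) × ℕ | Approx W α z.1 z.2 ∧
        ∃ m : ℕ, Near W z.1 z.2 m ∧ ¬ TriplesAt K₀ k κ κ' (comp (l.map f) m)}.Finite := by
  have key : ∀ᵐ α : Fin d → ℝ, ∀ r r' : ℚ, 0 ≤ (r : ℝ) → (r : ℝ) < r' → ∃ K₀ : ℕ, 1 ≤ K₀ ∧ ∀ k : ℕ, K₀ ≤ k →
      ∀ (W : ℕ) (l : List ℕ), {z : (Fin d → ℤ) × ℕ | Approx W α z.1 z.2 ∧
        ∃ m : ℕ, Near W z.1 z.2 m ∧ ¬ TriplesAt K₀ k r r' (comp (l.map f) m)}.Finite := by
    rw [ae_all_iff]
    intro r
    rw [ae_all_iff]
    intro r'
    by_cases hr : 0 ≤ (r : ℝ) ∧ (r : ℝ) < r'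
    swap
    · exact Eventually.of_forall fun α h1 h2 => absurd ⟨h1, h2⟩ hr
    obtain ⟨K₀, hK₀, hk⟩ := FewExceptionalOrders.result.1 r r' hr.1 hr.2
    have h1 : ∀ᵐ α : Fin d → ℝ, ∀ (k : ℕ) (W : ℕ) (l : List ℕ), K₀ ≤ k → {z : (Fin d → ℤ) × ℕ | Approx W α z.1 z.2 ∧
        ∃ m : ℕ, Near W z.1 z.2 m ∧ ¬ TriplesAt K₀ k r r' (comp (l.map f) m)}.Finite := by
      rw [ae_all_iff]
      intro k
      rw [ae_all_iff]
      intro W
      rw [ae_all_iff]
      intro l
      by_cases hkk : K₀ ≤ k
      swap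
      · exact Eventually.of_forall fun α h1 => absurd h1 hkk
      obtain ⟨c, K, hc, hcount⟩ := (hk k hkk).2 (l.map f) (fun g hg => by
        obtain ⟨i, -, rfl⟩ := List.mem_map.1 hg
        exact hf i)
      have h2 := Run7.h469.GA.main (fun m => TriplesAt K₀ k r r' (comp (l.map f) m))
        (thin_of hc (by positivity) hcount) d W hd
      filter_upwards [h2] with α hα _
      exact hα
    filter_upwards [h1] with α hα _ _
    exact ⟨K₀, hK₀, fun k hkk W l => hα k W l hkk⟩
  filter_upwards [key] with α hα κ κ' hκ hκ'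
  obtain ⟨r, hr1, hr2⟩ := exists_rat_btwn hκ'
  obtain ⟨r', hr3, hr4⟩ := exists_rat_btwn hr2
  obtain ⟨K₀, hK₀, h⟩ := hα r r' (by linarith) hr3
  refine ⟨K₀, hK₀, fun k hk W l => (h k hk W l).subset ?_⟩
  rintro z ⟨h1, m, h2, h3⟩
  exact ⟨h1, m, h2, fun h4 => h3 (triplesAt_mono hκ hr1.le hr4.le (by linarith) h4)⟩

end Pool.Agent.Results.MP_c82047_co.AllGoodApproximations
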