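import Pool.Agent.Run7.h156.ES.Bes

/-!
# Triple systems decided by circuits which read the names few times

The vertices of the triple system `H` are the `n = 2 ^ m` strings of `m` bits, in any labelling. The
edges are covered by `L` sets of ordered triples of strings (`CoveredH`), each of which is decided
by a circuit of the following kind. The gates compute arbitrary functions; a gate reads at most `κ`
words and bits of the three strings together; a word has `b` bits; the treewidth of the circuit
(of the graph of its words) is at most `θ`; and `(κ + 1) (θ + 1) b ≤ δ m`. Every bit may be read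
several times, in any order: the number of the wires from the bits of each of the three strings is at
most `r m`, where a bit which is never read counts one. Nothing is required of the triples with a
repeated string.

Theorem. Let `k = 18` or `k ≥ 23`, and `1 ≤ r < 3 / 2`. There are `δ, η > 0` such that if no `k`
edges of `H` have a union of size at most `k + 3` (so no `k + 3` vertices span `k` edges), and `m` is
large, then `H` has at most `L n ^ (2 - η)` edges. So the conjectured bound `o(n ^ 2)` holds for these
`k`, with a power saving, for all triple systems which are given by `L ≤ n ^ (η / 2)` such circuits.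

`Piece`: `Pool/Agent/Run7/h156/ES/Pieces.lean`; `CoveredH`: `Pool/Agent/Run7/h156/ES/Hyp2.lean`;
`WordCircuit`: `Pool/Agent/Run7/h156/CX/Circ.lean`.

Proof. The circuit is cut into few parts with few words between them, so that each part reads few
bits. Each part receives one of `g` colours at random; a bit whose parts all have the colour `l`
belongs to the group `l`. For a good colouring each of the three strings has about `α m` bits in each
of the `g` groups, for every `α < (g - (r - 1) (g - 1)) / g ^ 2`. For a fixed value of the remaining
bits and of the words between the parts, the accepted triples form a product `X_1 × ⋯ × X_g`, `X_l` a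
set of triples of strings of `α m` bits. A product in which three factors have more than `t 2 ^ (α m)`
elements contains a grid: different triples `z(a)`, `a ∈ [t] ^ 3`, such that the `i`th string of `z(a)`
does not depend on `a_i`, and grids contain `k` edges on at most `k + 3` vertices
(`Pool.Agent.H96.Bes.grid3` in the starting tree). Since two vertices are in at most `k` common edges,
the at most two large factors have at most `k 4 ^ (α m)` elements. So at most
`n ^ (3 - 2 (g - 1) α + o(1))` triples are accepted, and this is less than `n ^ (2 - η)` for large `g`,
if `r < 3 / 2`.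
-/

set_option autoImplicit false

namespace Pool.Agent.Results.MP_c82047_co.FewReadsSmallTreewidth

open Run7.h156.ES

open Classical in
theorem result (k : ℕ) (hk : k = 18 ∨ 23 ≤ k) (r : ℝ) (hr : 1 ≤ r) (hr' : r < 3 / 2) :
    ∃ δ : ℝ, 0 < δ ∧ ∃ η : ℝ, 0 < η ∧ ∃ m₀ : ℕ, ∀ (m L : ℕ) (H : Finset (Finset (Fin m → Bool))),
      m₀ ≤ m → (∀ h ∈ H, h.card = 3) → CoveredH r (δ * m) L 3 H →
      (∀ G ⊆ H, G.card = k → k + 3 < (G.biUnion id).card) →
      (H.card : ℝ) ≤ L * ((2:ℝ) ^ m) ^ (2 - η) := by
  obtain ⟨𝒯, h1, h2⟩ := Pool.Agent.H96.Bes.grid3 k hk
  obtain ⟨δ, hδ, η, hη, m₀, h⟩ := bes 3 k (2 ^ k) (by norm_num)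
    (⟨0, Nat.two_pow_pos k⟩ : Fin (2 ^ k)) 𝒯 h1 (by
      have e : (3 - 2) * k + 3 = k + 3 := by omega
      rw [e]
      exact h2) r hr (by push_cast; linarith)
  refine ⟨δ, hδ, η, hη, m₀, fun m L H hm hH hcov hfree => h m L H hm hH hcov fun G hG hc => ?_⟩
  have h3 := hfree G hG hc
  have e : (3 - 2) * k + 3 = k + 3 := by omega
  rw [e]
  exact h3

end Pool.Agent.Results.MP_c82047_co.FewReadsSmallTreewidth
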