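import Pool.Agent.Run7.h50.BES.Mult

/-!
# The Brown-Erdős-Sós conjecture for triple systems labelled by groups

Let `H` be a 3-graph on `n` vertices and let `E` be a set of at least `ε n²` of its edges which is
*labelled* by a group `Γ`: there are maps `α, β, γ` of the vertices into `Γ`, which take each value at
most `d` times, such that every edge in `E` is of the form `{x, y, z}` with `α(x) β(y) = γ(z)`. The
group is any group, finite or infinite, commutative or not, and it may be much larger than `n`. It is
only assumed that at most `κ n` of the elements `α(u)⁻¹ α(v) α(u')⁻¹ α(v')` have order less than `P`,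
where `P` and `κ > 0` depend on `k`, `d` and `ε` (for instance, `Γ` is torsion-free and `n ≥ 1 / κ`).

(1) Some `k` vertices span at least `k - 3` edges, for every `k`: the conjecture holds for `H`.
(2) Much more is true: some `4 m - 1` vertices span at least `m²` edges, for every `m`.

For dense sets of entries of the multiplication table of a finite group (`n` about `3 |Γ|`) this is
due to Solymosi, Wong, Nenadov-Sudakov-Tyomkyn and Long. Here the labels form sets `A`, `B`, `C` of
size at most `n` in a group of any size, with `ε n²` pairs `(a, b)` with `a b ∈ C`.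

Proof: by the Balog-Szemerédi-Gowers theorem and Tao's theorem, a dense part of the pairs lies in
`X × B'` where `X` and `B'` are approximately invariant from the right and the left under many
common elements `h`; these exist by the Croot-Sisask lemma. By the density Hales-Jewett theorem
(starting library) there are `a, b, h, w` such that all pairs `(a h^(w i), h^(w j) b)`, `i, j < m`
are among the pairs. They use `2 m` factors and `2 m - 1` products.
-/

set_option autoImplicit false

namespace Pool.Agent.Results.MP_c82047_co.GroupEmbeddable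

open Finset

/-- the edges in `E` are `{x, y, z}` with `α x * β y = γ z` -/
def Labelled {V Γ : Type} [DecidableEq V] [Group Γ] (E : Finset (Finset V)) (α β γ : V → Γ) :
    Prop := ∀ a ∈ E, ∃ x y z, a = {x, y, z} ∧ α x * β y = γ z

/-- `f` takes each value at most `d` times. -/
def AtMost {V Γ : Type} (d : ℕ) (f : V → Γ) : Prop :=
  ∀ W : Finset V, (∀ z ∈ W, ∀ z' ∈ W, f z = f z') → W.card ≤ d

/-- There are at most `c` elements of order less than `P` among the elements
`(α u)⁻¹ (α v) (α u')⁻¹ (α v')`. -/
def FewSmallOrders {V Γ : Type} [Group Γ] (α : V → Γ) (P : ℕ) (c : ℝ) : Prop :=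
  ∀ W : Finset Γ, (∀ g ∈ W, (∃ u v u' v', g = (α u)⁻¹ * α v * ((α u')⁻¹ * α v')) ∧
    ∃ j, 0 < j ∧ j < P ∧ g ^ j = 1) → (W.card : ℝ) ≤ c

/-- **Theorem.** Let `H` be a 3-graph with the vertex set `V`, and let at least `ε |V|^2` of its
edges (the set `E`) be labelled by a group, such that few of the quotients of the labels have small
orders. -/
theorem result :
    -- (1) `k` vertices spanning `k - 3` edges
    (∀ (k d : ℕ) (ε : ℝ), 4 ≤ k → 0 < ε → ∃ (P : ℕ) (κ : ℝ), 0 < κ ∧
      ∀ (Γ V : Type) [Group Γ] [Fintype V] [DecidableEq V] (H E : Finset (Finset V))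
        (α β γ : V → Γ), k ≤ Fintype.card V → (∀ a ∈ H, a.card = 3) → E ⊆ H →
        Labelled E α β γ → AtMost d α → AtMost d β → AtMost d γ →
        FewSmallOrders α P (κ * Fintype.card V) → ε * (Fintype.card V : ℝ) ^ 2 ≤ E.card →
        ∃ U : Finset V, U.card = k ∧ k - 3 ≤ (H.filter fun a => a ⊆ U).card) ∧
    -- (2) `4 m - 1` vertices spanning `m^2` edges
    (∀ (m d : ℕ) (ε : ℝ), 1 ≤ m → 0 < ε → ∃ (P : ℕ) (κ : ℝ), 0 < κ ∧
      ∀ (Γ V : Type) [Group Γ] [Fintype V] [DecidableEq V] (H E : Finset (Finset V))
        (α β γ : V → Γ), 4 * m - 1 ≤ Fintype.card V → (∀ a ∈ H, a.card = 3) → E ⊆ H →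
        Labelled E α β γ → AtMost d α → AtMost d β → AtMost d γ →
        FewSmallOrders α P (κ * Fintype.card V) → ε * (Fintype.card V : ℝ) ^ 2 ≤ E.card →
        ∃ U : Finset V, U.card = 4 * m - 1 ∧ m ^ 2 ≤ (H.filter fun a => a ⊆ U).card) := by
  -- from a set of pairs of indices to a set of `k` vertices
  have main : ∀ (m k d : ℕ) (ε : ℝ) (J : Finset (ℕ × ℕ)), 1 ≤ m → 0 < ε → 0 < k →
      (∀ z ∈ J, z.1 < m ∧ z.2 < m) → J.Nonempty →
      (J.image Prod.fst).card + (J.image Prod.snd).card +
          (J.image fun z => z.1 + z.2).card ≤ k → ∃ (P : ℕ) (κ : ℝ), 0 < κ ∧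
      ∀ (Γ V : Type) [Group Γ] [Fintype V] [DecidableEq V] (H E : Finset (Finset V))
        (α β γ : V → Γ), k ≤ Fintype.card V → (∀ a ∈ H, a.card = 3) → E ⊆ H →
        Labelled E α β γ → AtMost d α → AtMost d β → AtMost d γ →
        FewSmallOrders α P (κ * Fintype.card V) → ε * (Fintype.card V : ℝ) ^ 2 ≤ E.card →
        ∃ U : Finset V, U.card = k ∧ J.card ≤ (H.filter fun a => a ⊆ U).card := by
    classical
    intro m k d ε J hm hε hk0 hJ hJne hk
    obtain ⟨P, κ, hκ, h⟩ := Run7.h50.BES.Inf.config_mult m hm ε hε d
    refine ⟨P, κ, hκ, ?_⟩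
    intro Γ V _ _ _ H E α β γ hkV hH hEH hrel hα hβ hγ hW hEc
    have hτ : ∀ a : Finset V, ∃ t : V × V × V, a ∈ E →
        Run7.h50.BES.Marks a t ∧ α t.1 * β t.2.1 = γ t.2.2 := by
      intro a
      by_cases ha : a ∈ E
      · obtain ⟨x, y, z, h1, h2⟩ := hrel a ha
        refine ⟨(x, y, z), fun _ => ⟨⟨?_, ?_, ?_, ?_, ?_, ?_⟩, h2⟩⟩
        · rw [h1]; simp
        · rw [h1]; simp
        · rw [h1]; simp
        all_goals
          have h3 := hH a (hEH ha)
          rw [h1] at h3
          intro h4
          simp only at h4
          subst h4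
        · rw [Finset.insert_eq_of_mem (Finset.mem_insert_self _ _)] at h3
          have := Finset.card_le_two (a := x) (b := z)
          omega
        · have h5 : ({x, y, x} : Finset V) = {x, y} := by
            ext w
            simp only [Finset.mem_insert, Finset.mem_singleton]
            tauto
          rw [h5] at h3
          have := Finset.card_le_two (a := x) (b := y)
          omega
        · have h5 : ({x, y, y} : Finset V) = {x, y} := by
            ext w
            simp only [Finset.mem_insert, Finset.mem_singleton]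
            tauto
          rw [h5] at h3
          have := Finset.card_le_two (a := x) (b := y)
          omega
      · have hV : 0 < Fintype.card V := by omega
        obtain ⟨v⟩ := Fintype.card_pos_iff.1 hV
        exact ⟨(v, v, v), fun h => absurd h ha⟩
    choose τ hτ using hτ
    obtain ⟨E', hE'E, hE'c, hE'u⟩ := h (Additive Γ) V E 3 τ (fun x => Additive.ofMul (α x))
      (fun x => Additive.ofMul (β x)) (fun x => Additive.ofMul (γ x)) (fun a ha => hH a (hEH ha))
      (fun a ha => (hτ a ha).1)
      (fun W hW => hα W fun z hz z' hz' => Additive.ofMul.injective (hW z hz z' hz'))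
      (fun W hW => hβ W fun z hz z' hz' => Additive.ofMul.injective (hW z hz z' hz'))
      (fun W hW => hγ W fun z hz z' hz' => Additive.ofMul.injective (hW z hz z' hz'))
      (fun a ha => by rw [← ofMul_mul, (hτ a ha).2]) (by omega) hEc
      (fun W hWW => by
        have h4 := hW (W.map Additive.toMul.toEmbedding) (by
          intro g hg
          obtain ⟨g', hg', rfl⟩ := Finset.mem_map.1 hg
          obtain ⟨⟨u, w, u', w', h5⟩, j, hj0, hjP, hj⟩ := hWW g' hg'
          refine ⟨⟨u, w, u', w', ?_⟩, j, hj0, hjP, hj⟩
          rw [h5]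
          rfl)
        rw [Finset.card_map] at h4
        exact h4) J hJ hJne
    obtain ⟨U, hU1, hU2⟩ := Finset.exists_superset_card_eq (s := E'.biUnion id) (n := k)
      (by omega) hkV
    refine ⟨U, hU2, ?_⟩
    rw [← hE'c]
    refine Finset.card_le_card fun a ha => Finset.mem_filter.2 ⟨hEH (hE'E ha), ?_⟩
    exact fun w hw => hU1 (Finset.mem_biUnion.2 ⟨a, ha, hw⟩)
  constructor
  · intro k d ε hk hε
    set J : Finset (ℕ × ℕ) := (Finset.range (k - 3)).image fun r => (r / 2, r % 2) with hJ
    have hJc : J.card = k - 3 := by
      rw [hJ, Finset.card_image_of_injective, Finset.card_range]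
      intro r r' h
      obtain ⟨h1, h2⟩ := Prod.ext_iff.1 h
      have h1 : r / 2 = r' / 2 := h1
      have h2 : r % 2 = r' % 2 := h2
      omega
    have h1 : (J.image Prod.fst).card ≤ (k - 3 + 1) / 2 := by
      rw [← Finset.card_range ((k - 3 + 1) / 2)]
      refine Finset.card_le_card ?_
      intro i hi
      obtain ⟨z, hz, rfl⟩ := Finset.mem_image.1 hi
      rw [hJ] at hz
      obtain ⟨r, hr, rfl⟩ := Finset.mem_image.1 hz
      rw [Finset.mem_range] at hr ⊢
      show r / 2 < _
      omega
    have h2 : (J.image Prod.snd).card ≤ 2 := by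
      rw [← Finset.card_range 2]
      refine Finset.card_le_card ?_
      intro i hi
      obtain ⟨z, hz, rfl⟩ := Finset.mem_image.1 hi
      rw [hJ] at hz
      obtain ⟨r, hr, rfl⟩ := Finset.mem_image.1 hz
      rw [Finset.mem_range]
      show r % 2 < _
      omega
    have h3 : (J.image fun z => z.1 + z.2).card ≤ (k - 3) / 2 + 1 := by
      rw [← Finset.card_range ((k - 3) / 2 + 1)]
      refine Finset.card_le_card ?_
      intro i hi
      obtain ⟨z, hz, rfl⟩ := Finset.mem_image.1 hi
      rw [hJ] at hz
      obtain ⟨r, hr, rfl⟩ := Finset.mem_image.1 hz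
      rw [Finset.mem_range] at hr ⊢
      show r / 2 + r % 2 < _
      omega
    have h4 : ∀ z ∈ J, z.1 < k ∧ z.2 < k := by
      intro z hz
      rw [hJ] at hz
      obtain ⟨r, hr, rfl⟩ := Finset.mem_image.1 hz
      rw [Finset.mem_range] at hr
      show r / 2 < k ∧ r % 2 < k
      omega
    have h5 : J.Nonempty := by
      rw [← Finset.card_pos, hJc]
      omega
    obtain ⟨P, κ, hκ, h⟩ := main k k d ε J (by omega) hε (by omega) h4 h5 (by omega)
    rw [hJc] at h
    exact ⟨P, κ, hκ, h⟩
  · intro m d ε hm hε
    set J : Finset (ℕ × ℕ) := (Finset.range m) ×ˢ (Finset.range m) with hJ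
    have hJc : J.card = m ^ 2 := by
      rw [hJ, Finset.card_product, Finset.card_range, sq]
    have h1 : (J.image Prod.fst).card ≤ m := by
      calc (J.image Prod.fst).card ≤ (Finset.range m).card := by
            refine Finset.card_le_card ?_
            intro i hi
            obtain ⟨z, hz, rfl⟩ := Finset.mem_image.1 hi
            rw [hJ, Finset.mem_product] at hz
            exact hz.1
        _ = m := Finset.card_range m
    have h2 : (J.image Prod.snd).card ≤ m := by
      calc (J.image Prod.snd).card ≤ (Finset.range m).card := by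
            refine Finset.card_le_card ?_
            intro i hi
            obtain ⟨z, hz, rfl⟩ := Finset.mem_image.1 hi
            rw [hJ, Finset.mem_product] at hz
            exact hz.2
        _ = m := Finset.card_range m
    have h3 : (J.image fun z => z.1 + z.2).card ≤ 2 * m - 1 := by
      calc (J.image fun z => z.1 + z.2).card ≤ (Finset.range (2 * m - 1)).card := by
            refine Finset.card_le_card ?_
            intro i hi
            obtain ⟨z, hz, rfl⟩ := Finset.mem_image.1 hi
            rw [hJ, Finset.mem_product, Finset.mem_range, Finset.mem_range] at hz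
            rw [Finset.mem_range]
            omega
        _ = 2 * m - 1 := Finset.card_range _
    have h4 : ∀ z ∈ J, z.1 < m ∧ z.2 < m := by
      intro z hz
      rw [hJ, Finset.mem_product, Finset.mem_range, Finset.mem_range] at hz
      exact hz
    have h5 : J.Nonempty := by
      rw [← Finset.card_pos, hJc]
      positivity
    obtain ⟨P, κ, hκ, h⟩ := main m (4 * m - 1) d ε J hm hε (by omega) h4 h5 (by omega)
    rw [hJc] at h
    exact ⟨P, κ, hκ, h⟩

end Pool.Agent.Results.MP_c82047_co.GroupEmbeddable
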