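import Pool.Agent.Run7.h50.BES.Reduce

/-!
# Triple systems with many cuboctahedra, and a power saving for triple systems labelled by groups

Let `T` be a linear tripartite triple system with parts of size at most `n`: a set of triples
`(x, y, z)`, any two of which have at most one vertex in common. We view `T` as a partial Latin
square: in the cell with row `x` and column `y` is the symbol `z`. A *cuboctahedron* in `T` is a pair
of `2 × 2` subgrids with different rows and with the same symbols: eight triples
`(x i l, y j l, z i j)`, `i, j, l ∈ {0, 1}`, on twelve vertices. There are at most `n ^ 5`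
cuboctahedra, and about `n ^ 4` in a random system of positive density.

(1) If `T` has at least `√(e + 12) n ^ (9/2)` cuboctahedra and `e = 18` or `e ≥ 22`, some `e` triples
of `T` have at most `e + 3` vertices.

(2) If three symbols of a `2 × 2` subgrid of `T` determine the fourth one up to `d` choices, and
`|T| > C_e d ^ (1/8) n ^ (31/16)`, some `e` triples have at most `e + 3` vertices
(`e = 18`, `e ≥ 22`).

(3) Let `H` be a 3-graph on `n` vertices with a set `E` of more than `C_k d ^ (1/8) n ^ (31/16)`
edges of the form `{x, y, z}` with `α(x) β(y) = γ(z)`, where `α, β, γ` are maps of the vertices to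
any group (finite or infinite, commutative or not, with or without torsion), `γ` takes each value
at most `d` times. Then for `k = 21` and all `k ≥ 25` some `k` vertices span at least `k - 3` edges:
the conjecture holds for these `k`, with a power saving.

So a counterexample to the conjecture for some `k ≥ 25` has fewer than `C n ^ (9/2)` cuboctahedra.

Proof of (1): in the graph whose vertices are the pairs of rows and the pairs of columns, where
`(x, x')` and `(y, y')` are joined if the cells `(x, y)` and `(x', y')` have the same symbol, the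
cuboctahedra are the 4-cycles. The degrees are at most `n`; hence some edge `(p, q)` is on
`n ^ (3/2)` of them, and between the neighbours of `p` and `q` there are `K_{2, b}` for large `b`, so
`K_{3, b}` in the graph: two `3 × b` subgrids with the same symbols. Their `6 b` triples have `6` rows,
`2 b` columns and at most `3 b` symbols. (2), (3): by Cauchy-Schwarz.
-/

set_option autoImplicit false

namespace Pool.Agent.Results.MP_c82047_co.ManyCuboctahedra

open Finset

/-- `T` is linear: two different triples have at most one vertex in common. -/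
structure Linear {X Y Z : Type} (T : Finset (X × Y × Z)) : Prop where
  z_eq : ∀ x y z z', (x, y, z) ∈ T → (x, y, z') ∈ T → z = z'
  y_eq : ∀ x y y' z, (x, y, z) ∈ T → (x, y', z) ∈ T → y = y'
  x_eq : ∀ x x' y z, (x, y, z) ∈ T → (x', y, z) ∈ T → x = x'

open Classical in
/-- The cuboctahedra of `T`: the rows `x i l`, columns `y j l` and symbols `z i j` of two `2 × 2`
subgrids (`l = false` and `l = true`) with different rows and the same symbols. -/
noncomputable def cuboctahedra {X Y Z : Type} [Fintype X] [Fintype Y] [Fintype Z]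
    (T : Finset (X × Y × Z)) :
    Finset ((Bool → Bool → X) × (Bool → Bool → Y) × (Bool → Bool → Z)) :=
  univ.filter fun c => (∀ i j l, (c.1 i l, c.2.1 j l, c.2.2 i j) ∈ T) ∧
    ∀ i, c.1 i false ≠ c.1 i true

/-- Some `e` triples of `T` have at most `v` vertices. -/
def Has {X Y Z : Type} [DecidableEq X] [DecidableEq Y] [DecidableEq Z] (T : Finset (X × Y × Z))
    (e v : ℕ) : Prop :=
  ∃ T' ⊆ T, T'.card = e ∧ (T'.image fun t => t.1).card + (T'.image fun t => t.2.1).card +
    (T'.image fun t => t.2.2).card ≤ v

theorem cub_le {X Y Z : Type} [Fintype X] [Fintype Y] [Fintype Z]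
    {T : Finset (X × Y × Z)} (hT : Linear T) : (cuboctahedra T).card ≤ Run7.h50.BES.Wn T := by
  classical
  unfold Run7.h50.BES.Wn
  refine Finset.card_le_card_of_injOn (fun c =>
    (((c.1 false false, c.1 false true), (c.1 true false, c.1 true true)),
      ((c.2.1 false false, c.2.1 false true), (c.2.1 true false, c.2.1 true true)))) ?_ ?_
  · intro c hc
    have hc := (Finset.mem_filter.1 (Finset.mem_coe.1 hc)).2
    obtain ⟨h, hne⟩ := hc
    refine Finset.mem_coe.2 (Finset.mem_filter.2 ⟨Finset.mem_univ _, ?_, ?_, ?_, ?_⟩)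
    · exact ⟨hne false, c.2.2 false false, h false false false, h false false true⟩
    · exact ⟨hne false, c.2.2 false true, h false true false, h false true true⟩
    · exact ⟨hne true, c.2.2 true false, h true false false, h true false true⟩
    · exact ⟨hne true, c.2.2 true true, h true true false, h true true true⟩
  · intro c hc c' hc' he
    have hc := (Finset.mem_filter.1 (Finset.mem_coe.1 hc)).2.1
    have hc' := (Finset.mem_filter.1 (Finset.mem_coe.1 hc')).2.1
    simp only [Prod.mk.injEq] at he
    obtain ⟨⟨⟨a1, a2⟩, a3, a4⟩, ⟨a5, a6⟩, a7, a8⟩ := he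
    have e1 : c.1 = c'.1 := by
      funext i l
      cases i <;> cases l <;> assumption
    have e2 : c.2.1 = c'.2.1 := by
      funext i l
      cases i <;> cases l <;> assumption
    have e3 : c.2.2 = c'.2.2 := by
      funext i j
      have h1 := hc i j false
      have h2 := hc' i j false
      rw [← e1, ← e2] at h2
      exact hT.z_eq _ _ _ _ h1 h2
    exact Prod.ext e1 (Prod.ext e2 e3)

theorem result :
    -- (1) many cuboctahedra
    (∀ (X Y Z : Type) [Fintype X] [Fintype Y] [Fintype Z] [DecidableEq X] [DecidableEq Y]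
      [DecidableEq Z] (T : Finset (X × Y × Z)) (n e : ℕ), Linear T → 0 < n →
      Fintype.card X ≤ n → Fintype.card Y ≤ n → Fintype.card Z ≤ n → (e = 18 ∨ 22 ≤ e) →
      (e + 12) * n ^ 9 ≤ (cuboctahedra T).card ^ 2 → Has T e (e + 3)) ∧
    -- (2) three symbols of a `2 × 2` subgrid determine the fourth up to `d` choices
    (∀ (X Y Z : Type) [Fintype X] [Fintype Y] [Fintype Z] [DecidableEq X] [DecidableEq Y]
      [DecidableEq Z] (T : Finset (X × Y × Z)) (n e d : ℕ), Linear T → 0 < n →
      Fintype.card X ≤ n → Fintype.card Y ≤ n → Fintype.card Z ≤ n → (e = 18 ∨ 22 ≤ e) →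
      ∀ F : Z × Z × Z → Finset Z, (∀ u, (F u).card ≤ d) →
      (∀ x x' y y' z₁ z₂ z₃ z₄, (x, y, z₁) ∈ T → (x, y', z₂) ∈ T → (x', y, z₃) ∈ T →
        (x', y', z₄) ∈ T → z₄ ∈ F (z₁, z₂, z₃)) →
      4 * (e + 12) * d ^ 2 * n ^ 31 < T.card ^ 16 → Has T e (e + 3)) ∧
    -- (3) edges labelled by a group
    (∀ k : ℕ, (k = 21 ∨ 25 ≤ k) → ∃ C : ℕ, ∀ (Γ V : Type) [Group Γ] [Fintype V] [DecidableEq V]
      (H E : Finset (Finset V)) (α β γ : V → Γ) (d : ℕ), k ≤ Fintype.card V →
      (∀ a ∈ H, a.card = 3) → E ⊆ H →
      (∀ a ∈ E, ∃ x y z, a = {x, y, z} ∧ α x * β y = γ z) →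
      (∀ W : Finset V, (∀ z ∈ W, ∀ z' ∈ W, γ z = γ z') → W.card ≤ d) →
      C * d ^ 2 * Fintype.card V ^ 31 < E.card ^ 16 →
      ∃ U : Finset V, U.card = k ∧ k - 3 ≤ (H.filter fun a => a ⊆ U).card) := by
  refine ⟨?_, ?_, ?_⟩
  · intro X Y Z _ _ _ _ _ _ T n e hT hn hX hY hZ he hc
    have hT' : Run7.h50.BES.Lin T := ⟨hT.z_eq, hT.y_eq, hT.x_eq⟩
    have hW : (e + 12) * n ^ 9 ≤ Run7.h50.BES.Wn T ^ 2 :=
      hc.trans (Nat.pow_le_pow_left (cub_le hT) 2)
    obtain ⟨p, Q, hQ, hadj, hdist⟩ := Run7.h50.BES.core hT' n e hn (by omega) hX hY hZ hW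
    exact Run7.h50.BES.shape hT' e he p Q hQ hadj hdist
  · intro X Y Z _ _ _ _ _ _ T n e d hT hn hX hY hZ he F hF hlab hm
    exact Run7.h50.BES.few_labels ⟨hT.z_eq, hT.y_eq, hT.x_eq⟩ n d e hn he hX hY hZ F hF hlab hm
  · intro k hk
    refine ⟨4 * (k - 3 + 12) * (3 * (k - 3)) ^ 16, ?_⟩
    intro Γ V _ _ _ H E α β γ d hkV hH hEH hrel hγ hm
    classical
    have hτ : ∀ a : Finset V, ∃ t : V × V × V, a ∈ E →
        Run7.h50.BES.Marks a t ∧ a = {t.1, t.2.1, t.2.2} ∧ α t.1 * β t.2.1 = γ t.2.2 := by
      intro a
      by_cases ha : a ∈ E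
      · obtain ⟨x, y, z, h1, h2⟩ := hrel a ha
        refine ⟨(x, y, z), fun _ => ⟨⟨?_, ?_, ?_, ?_, ?_, ?_⟩, h1, h2⟩⟩
        · rw [h1]; simp
        · rw [h1]; simp
        · rw [h1]; simp
        all_goals
          have h3 := hH a (hEH ha)
          rw [h1] at h3
          intro h4
          simp only at h4
          subst h4
        · rw [Finset.insert_eq_of_mem (Finset.mem_insert_self _ _)] at h3
          have := Finset.card_le_two (a := x) (b := z)
          omega
        · have h5 : ({x, y, x} : Finset V) = {x, y} := by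
            ext w
            simp only [Finset.mem_insert, Finset.mem_singleton]
            tauto
          rw [h5] at h3
          have := Finset.card_le_two (a := x) (b := y)
          omega
        · have h5 : ({x, y, y} : Finset V) = {x, y} := by
            ext w
            simp only [Finset.mem_insert, Finset.mem_singleton]
            tauto
          rw [h5] at h3
          have := Finset.card_le_two (a := x) (b := y)
          omega
      · have hV : 0 < Fintype.card V := by omega
        obtain ⟨v⟩ := Fintype.card_pos_iff.1 hV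
        exact ⟨(v, v, v), fun h => absurd h ha⟩
    choose τ hτ using hτ
    have hsp := Run7.h50.BES.power_saving E 3 (k - 3) d le_rfl (by omega)
      (fun a ha => hH a (hEH ha)) τ (fun a ha => (hτ a ha).1)
      (fun u => univ.filter fun z => γ z = γ u.2.2 * (γ u.1)⁻¹ * γ u.2.1)
      (fun u => hγ _ (fun z hz z' hz' =>
        (Finset.mem_filter.1 hz).2.trans (Finset.mem_filter.1 hz').2.symm))
      (by
        intro x x' y y' z₁ z₂ z₃ z₄ h1 h2 h3 h4
        obtain ⟨a1, ha1, e1⟩ := Finset.mem_image.1 h1
        obtain ⟨a2, ha2, e2⟩ := Finset.mem_image.1 h2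
        obtain ⟨a3, ha3, e3⟩ := Finset.mem_image.1 h3
        obtain ⟨a4, ha4, e4⟩ := Finset.mem_image.1 h4
        have r1 := (hτ a1 ha1).2.2
        have r2 := (hτ a2 ha2).2.2
        have r3 := (hτ a3 ha3).2.2
        have r4 := (hτ a4 ha4).2.2
        rw [e1] at r1
        rw [e2] at r2
        rw [e3] at r3
        rw [e4] at r4
        refine Finset.mem_filter.2 ⟨Finset.mem_univ _, ?_⟩
        show γ z₄ = γ z₃ * (γ z₁)⁻¹ * γ z₂
        simp only at r1 r2 r3 r4
        rw [← r1, ← r2, ← r3, ← r4]
        group) hm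
    obtain ⟨E', hE'E, hE'c, hE'u⟩ := hsp
    obtain ⟨U, hU1, hU2⟩ := Finset.exists_superset_card_eq (s := E'.biUnion id) (n := k)
      (by omega) hkV
    refine ⟨U, hU2, ?_⟩
    rw [← hE'c]
    refine Finset.card_le_card fun a ha => Finset.mem_filter.2 ⟨hEH (hE'E ha), ?_⟩
    exact fun w hw => hU1 (Finset.mem_biUnion.2 ⟨a, ha, hw⟩)

end Pool.Agent.Results.MP_c82047_co.ManyCuboctahedra
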